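import Pool.Agent.H97.SXM.Defs

/-!
# [SQ VECR] The volume of the region of the vectors at a real place

`g : Fin 4 → ℝ` a form with `disc g ≠ 0`. `lin_fac`: a real linear factor: `g = (u x + w y)(A x² + B x y + C y²)`. With `z = (-w, u)`, `Q(z) = A w² - B u w + C u²`, `P` the polar form of `Q` at `z`, `t = u x + w y`:
`4 Q(v) Q(z) = P² + (4 A C - B²) t²`.
* `facP` (`disc g > 0`, `s² = B² - 4 A C`): `l = s t`, `m = -(P + s t)/2`: `disc g = δ²`, `g δ = -l m (l + m)`, `hes g = l² + l m + m²`, `δ = dt l m = -s Q(z)`.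
* `facN` (`disc g < 0`, `s² = 4 A C - B²`): `l = (s/2) t`, `m = P / 2`: `disc g = -4 δ²`, `g δ = l (l² + m²)`, `hes g = m² - 3 l²`, `δ = (s/2) Q(z)`.
* `WR true = {|x₀² + x₀ x₁ + x₁²| ≤ 1, |x₀ x₁ (x₀ + x₁)| ≤ 1}`, `WR false = {|x₁² - 3 x₀²| ≤ 1, |2 x₀ (x₀² + x₁²)| ≤ 1}`: bounded neighbourhoods of `0`. `cR true = vol (WR true)`, `cR false = 2 vol (WR false)`.
* `v1_volR`: the volume of `{v : Fin 2 → ℝ | V1 T g v}` is `T² cR (0 < disc g) / √|disc g|`.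
-/

set_option autoImplicit false

open scoped NumberField Classical
open MeasureTheory H77.MF H97.SXM

noncomputable section

namespace H38.SQM

private theorem cub_pos {a : ℝ} (ha : 0 < a) (b c e : ℝ) :
    ∃ r : ℝ, a * r ^ 3 + b * r ^ 2 + c * r + e = 0 := by
  obtain ⟨N, hN⟩ : ∃ N : ℝ, N = |b| + |c| + |e| := ⟨_, rfl⟩
  have hN0 : 0 ≤ N := by
    rw [hN]
    positivity
  obtain ⟨M, hM⟩ : ∃ M : ℝ, M = 1 + N / a := ⟨_, rfl⟩
  have hM1 : 1 ≤ M := by
    rw [hM]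
    have : 0 ≤ N / a := by positivity
    linarith
  have haM : a * M = a + N := by
    rw [hM, mul_add, mul_one, mul_div_cancel₀ _ ha.ne']
  have hM2 : 0 < M ^ 2 := by positivity
  have hMM : M ≤ M ^ 2 := by nlinarith
  have h1M : 1 ≤ M ^ 2 := by nlinarith
  have hb := abs_le.1 (le_refl |b|)
  have hc := abs_le.1 (le_refl |c|)
  have he := abs_le.1 (le_refl |e|)
  have k1 : |b| * M ^ 2 + |c| * M + |e| ≤ N * M ^ 2 := by
    rw [hN]
    nlinarith [abs_nonneg c, abs_nonneg e, mul_le_mul_of_nonneg_left hMM (abs_nonneg c),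
      mul_le_mul_of_nonneg_left h1M (abs_nonneg e)]
  have k2 : a * M ^ 3 = a * M ^ 2 + N * M ^ 2 := by
    calc a * M ^ 3 = (a * M) * M ^ 2 := by ring
      _ = (a + N) * M ^ 2 := by rw [haM]
      _ = _ := by ring
  have k3 : 0 < a * M ^ 2 := by positivity
  have hMp : 0 < M := by linarith
  have p1 : 0 ≤ a * M ^ 3 + b * M ^ 2 + c * M + e := by
    have e1 : -(|b| * M ^ 2) ≤ b * M ^ 2 := by nlinarith
    have e2 : -(|c| * M) ≤ c * M := by nlinarith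
    linarith [he.1]
  have p2 : a * (-M) ^ 3 + b * (-M) ^ 2 + c * (-M) + e ≤ 0 := by
    have e1 : b * M ^ 2 ≤ |b| * M ^ 2 := mul_le_mul_of_nonneg_right hb.2 hM2.le
    have e2 : -(c * M) ≤ |c| * M := by nlinarith
    have e3 : a * (-M) ^ 3 + b * (-M) ^ 2 + c * (-M) + e = -(a * M ^ 3) + b * M ^ 2 - c * M + e := by
      ring
    rw [e3]
    linarith [he.2]
  have hcont : ContinuousOn (fun r : ℝ => a * r ^ 3 + b * r ^ 2 + c * r + e) (Set.Icc (-M) M) := by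
    fun_prop
  have h := intermediate_value_Icc (by linarith : -M ≤ M) hcont
  obtain ⟨r, -, hr⟩ := h ⟨p2, p1⟩
  exact ⟨r, hr⟩

private theorem cub_root {a : ℝ} (ha : a ≠ 0) (b c e : ℝ) :
    ∃ r : ℝ, a * r ^ 3 + b * r ^ 2 + c * r + e = 0 := by
  rcases lt_or_gt_of_ne ha with h | h
  · obtain ⟨r, hr⟩ := cub_pos (by linarith : 0 < -a) (-b) (-c) (-e)
    exact ⟨r, by linarith⟩
  · exact cub_pos h b c e

/-- a real linear factor -/
private theorem lin_fac (g : Fin 4 → ℝ) : ∃ u w A B C : ℝ,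
    g 0 = u * A ∧ g 1 = u * B + w * A ∧ g 2 = u * C + w * B ∧ g 3 = w * C := by
  by_cases ha : g 0 = 0
  · exact ⟨0, 1, g 1, g 2, g 3, by rw [ha]; ring, by ring, by ring, by ring⟩
  · obtain ⟨r, hr⟩ := cub_root ha (g 1) (g 2) (g 3)
    exact ⟨1, -r, g 0, g 1 + g 0 * r, g 2 + g 1 * r + g 0 * r ^ 2, by ring, by ring, by ring,
      by linarith⟩

private theorem disc_fac {g : Fin 4 → ℝ} {u w A B C : ℝ} (h0 : g 0 = u * A)
    (h1 : g 1 = u * B + w * A) (h2 : g 2 = u * C + w * B) (h3 : g 3 = w * C) :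
    disc g = (B ^ 2 - 4 * A * C) * (A * w ^ 2 - B * u * w + C * u ^ 2) ^ 2 := by
  unfold disc
  rw [h0, h1, h2, h3]
  ring

theorem facP {g : Fin 4 → ℝ} (hg : 0 < disc g) : ∃ l m : Fin 2 → ℝ, disc g = dt l m ^ 2 ∧
    (∀ v : Fin 2 → ℝ, ev g v * dt l m = -((l 0 * v 0 + l 1 * v 1) * (m 0 * v 0 + m 1 * v 1) *
      ((l 0 * v 0 + l 1 * v 1) + (m 0 * v 0 + m 1 * v 1)))) ∧
    ∀ v : Fin 2 → ℝ, hes g v = (l 0 * v 0 + l 1 * v 1) ^ 2 +
      (l 0 * v 0 + l 1 * v 1) * (m 0 * v 0 + m 1 * v 1) + (m 0 * v 0 + m 1 * v 1) ^ 2 := by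
  obtain ⟨u, w, A, B, C, h0, h1, h2, h3⟩ := lin_fac g
  have hd := disc_fac h0 h1 h2 h3
  have hs0 : 0 < B ^ 2 - 4 * A * C := by
    rw [hd] at hg
    exact pos_of_mul_pos_left hg (sq_nonneg _)
  obtain ⟨s, hs⟩ : ∃ s : ℝ, s ^ 2 = B ^ 2 - 4 * A * C := ⟨_, Real.sq_sqrt hs0.le⟩
  refine ⟨![s * u, s * w], ![-((-2 * A * w + B * u) + s * u) / 2, -((-B * w + 2 * C * u) + s * w) / 2],
    ?_, ?_, ?_⟩
  · rw [hd, ← hs]
    simp only [dt, Matrix.cons_val_zero, Matrix.cons_val_one]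
    ring
  · intro v
    simp only [ev, dt, h0, h1, h2, h3, Matrix.cons_val_zero, Matrix.cons_val_one]
    have e : s ^ 3 = s * (B ^ 2 - 4 * A * C) := by rw [← hs]; ring
    ring_nf
    rw [e]
    ring
  · intro v
    simp only [hes, hA, hC, h0, h1, h2, h3, Matrix.cons_val_zero, Matrix.cons_val_one]
    ring_nf
    rw [hs]
    ring

theorem facN {g : Fin 4 → ℝ} (hg : disc g < 0) : ∃ l m : Fin 2 → ℝ, disc g = -(4 * dt l m ^ 2) ∧
    (∀ v : Fin 2 → ℝ, ev g v * dt l m = (l 0 * v 0 + l 1 * v 1) *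
      ((l 0 * v 0 + l 1 * v 1) ^ 2 + (m 0 * v 0 + m 1 * v 1) ^ 2)) ∧
    ∀ v : Fin 2 → ℝ, hes g v = (m 0 * v 0 + m 1 * v 1) ^ 2 - 3 * (l 0 * v 0 + l 1 * v 1) ^ 2 := by
  obtain ⟨u, w, A, B, C, h0, h1, h2, h3⟩ := lin_fac g
  have hd := disc_fac h0 h1 h2 h3
  have hs0 : 0 < 4 * A * C - B ^ 2 := by
    rw [hd] at hg
    by_contra h
    push Not at h
    have := mul_nonneg (by linarith : 0 ≤ B ^ 2 - 4 * A * C)
      (sq_nonneg (A * w ^ 2 - B * u * w + C * u ^ 2))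
    linarith
  obtain ⟨s, hs⟩ : ∃ s : ℝ, s ^ 2 = 4 * A * C - B ^ 2 := ⟨_, Real.sq_sqrt hs0.le⟩
  refine ⟨![s / 2 * u, s / 2 * w], ![(-2 * A * w + B * u) / 2, (-B * w + 2 * C * u) / 2],
    ?_, ?_, ?_⟩
  · have e : B ^ 2 - 4 * A * C = -s ^ 2 := by rw [hs]; ring
    rw [hd, e]
    simp only [dt, Matrix.cons_val_zero, Matrix.cons_val_one]
    ring
  · intro v
    simp only [ev, dt, h0, h1, h2, h3, Matrix.cons_val_zero, Matrix.cons_val_one]
    have e : s ^ 3 = s * (4 * A * C - B ^ 2) := by rw [← hs]; ring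
    ring_nf
    rw [e]
    ring
  · intro v
    simp only [hes, hA, hC, h0, h1, h2, h3, Matrix.cons_val_zero, Matrix.cons_val_one]
    ring_nf
    rw [hs]
    ring

/-- the standard regions -/
def WR (b : Bool) : Set (Fin 2 → ℝ) :=
  if b then {x | |x 0 ^ 2 + x 0 * x 1 + x 1 ^ 2| ≤ 1 ∧ |x 0 * x 1 * (x 0 + x 1)| ≤ 1}
  else {x | |x 1 ^ 2 - 3 * x 0 ^ 2| ≤ 1 ∧ |2 * (x 0 * (x 0 ^ 2 + x 1 ^ 2))| ≤ 1}

/-- the constants of the real places -/
def cR (b : Bool) : ℝ := if b then (volume (WR true)).toReal else 2 * (volume (WR false)).toReal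

private theorem wr_bd (b : Bool) (x : Fin 2 → ℝ) (hx : x ∈ WR b) : |x 0| ≤ 2 ∧ |x 1| ≤ 2 := by
  cases b
  · obtain ⟨h1, h2⟩ : |x 1 ^ 2 - 3 * x 0 ^ 2| ≤ 1 ∧ |2 * (x 0 * (x 0 ^ 2 + x 1 ^ 2))| ≤ 1 := hx
    have h3 := abs_le.1 h1
    have h0 : |x 0| ≤ 1 := by
      by_contra h
      push Not at h
      rw [abs_mul, abs_mul, abs_of_pos (by norm_num : (0 : ℝ) < 2),
        abs_of_nonneg (by positivity : 0 ≤ x 0 ^ 2 + x 1 ^ 2)] at h2
      have h4 : 1 < x 0 ^ 2 := by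
        rw [← sq_abs]
        nlinarith
      nlinarith
    have h4 : x 0 ^ 2 ≤ 1 := by
      rw [← sq_abs]
      nlinarith [abs_nonneg (x 0)]
    refine ⟨by linarith, ?_⟩
    rw [← abs_of_nonneg (by norm_num : (0 : ℝ) ≤ 2), ← sq_le_sq]
    linarith [h3.2]
  · obtain ⟨h1, h2⟩ : |x 0 ^ 2 + x 0 * x 1 + x 1 ^ 2| ≤ 1 ∧ |x 0 * x 1 * (x 0 + x 1)| ≤ 1 := hx
    have h3 := (abs_le.1 h1).2
    constructor
    · rw [← abs_of_nonneg (by norm_num : (0 : ℝ) ≤ 2), ← sq_le_sq]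
      nlinarith [sq_nonneg (x 0 + 2 * x 1)]
    · rw [← abs_of_nonneg (by norm_num : (0 : ℝ) ≤ 2), ← sq_le_sq]
      nlinarith [sq_nonneg (2 * x 0 + x 1)]

theorem wr_fin (b : Bool) : volume (WR b) ≠ ⊤ := by
  have h : Bornology.IsBounded (WR b) := by
    refine (Metric.isBounded_closedBall (x := (0 : Fin 2 → ℝ)) (r := 2)).subset fun v hv => ?_
    rw [mem_closedBall_zero_iff, pi_norm_le_iff_of_nonneg (by norm_num)]
    obtain ⟨h1, h2⟩ := wr_bd b v hv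
    intro i
    fin_cases i
    · exact h1
    · exact h2
  exact h.measure_lt_top.ne

private theorem wr_nhds (b : Bool) : WR b ∈ nhds (0 : Fin 2 → ℝ) := by
  cases b
  · have c1 : Continuous fun x : Fin 2 → ℝ => |x 1 ^ 2 - 3 * x 0 ^ 2| := by fun_prop
    have c2 : Continuous fun x : Fin 2 → ℝ => |2 * (x 0 * (x 0 ^ 2 + x 1 ^ 2))| := by fun_prop
    have h1 : ∀ᶠ x in nhds (0 : Fin 2 → ℝ), |x 1 ^ 2 - 3 * x 0 ^ 2| < 1 :=
      c1.continuousAt.eventually_lt continuousAt_const (by simp)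
    have h2 : ∀ᶠ x in nhds (0 : Fin 2 → ℝ), |2 * (x 0 * (x 0 ^ 2 + x 1 ^ 2))| < 1 :=
      c2.continuousAt.eventually_lt continuousAt_const (by simp)
    filter_upwards [h1, h2] with x h3 h4
    exact ⟨h3.le, h4.le⟩
  · have c1 : Continuous fun x : Fin 2 → ℝ => |x 0 ^ 2 + x 0 * x 1 + x 1 ^ 2| := by fun_prop
    have c2 : Continuous fun x : Fin 2 → ℝ => |x 0 * x 1 * (x 0 + x 1)| := by fun_prop
    have h1 : ∀ᶠ x in nhds (0 : Fin 2 → ℝ), |x 0 ^ 2 + x 0 * x 1 + x 1 ^ 2| < 1 :=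
      c1.continuousAt.eventually_lt continuousAt_const (by simp)
    have h2 : ∀ᶠ x in nhds (0 : Fin 2 → ℝ), |x 0 * x 1 * (x 0 + x 1)| < 1 :=
      c2.continuousAt.eventually_lt continuousAt_const (by simp)
    filter_upwards [h1, h2] with x h3 h4
    exact ⟨h3.le, h4.le⟩

theorem wr_pos (b : Bool) : 0 < (volume (WR b)).toReal :=
  ENNReal.toReal_pos (Measure.measure_pos_of_mem_nhds volume (wr_nhds b)).ne' (wr_fin b)

theorem cR_pos (b : Bool) : 0 < cR b := by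
  cases b
  · exact mul_pos two_pos (wr_pos false)
  · exact wr_pos true

private theorem vol_lin {l m : Fin 2 → ℝ} (hδ : dt l m ≠ 0) {T : ℝ} (hT : 0 < T)
    {W S : Set (Fin 2 → ℝ)} (hS : ∀ v x : Fin 2 → ℝ, l 0 * v 0 + l 1 * v 1 = T * x 0 →
      m 0 * v 0 + m 1 * v 1 = T * x 1 → (v ∈ S ↔ x ∈ W)) :
    volume S = ENNReal.ofReal (T ^ 2 / |dt l m|) * volume W := by
  obtain ⟨M, hM⟩ : ∃ M : Matrix (Fin 2) (Fin 2) ℝ, M = !![l 0 / T, l 1 / T; m 0 / T, m 1 / T] :=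
    ⟨_, rfl⟩
  obtain ⟨L, hL⟩ : ∃ L : (Fin 2 → ℝ) →ₗ[ℝ] (Fin 2 → ℝ), L = Matrix.toLin' M := ⟨_, rfl⟩
  have hL0 : ∀ v, L v 0 = (l 0 * v 0 + l 1 * v 1) / T := by
    intro v
    rw [hL, Matrix.toLin'_apply, hM]
    simp [Matrix.mulVec, dotProduct, Fin.sum_univ_two]
    ring
  have hL1 : ∀ v, L v 1 = (m 0 * v 0 + m 1 * v 1) / T := by
    intro v
    rw [hL, Matrix.toLin'_apply, hM]
    simp [Matrix.mulVec, dotProduct, Fin.sum_univ_two]
    ring
  have hdet : LinearMap.det L = dt l m / T ^ 2 := by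
    rw [hL, LinearMap.det_toLin', hM, Matrix.det_fin_two_of]
    unfold dt
    field_simp
  have hdet0 : LinearMap.det L ≠ 0 := by
    rw [hdet]
    exact div_ne_zero hδ (by positivity)
  have hpre : S = L ⁻¹' W := by
    ext v
    rw [Set.mem_preimage]
    refine hS v (L v) ?_ ?_
    · rw [hL0, mul_div_cancel₀ _ hT.ne']
    · rw [hL1, mul_div_cancel₀ _ hT.ne']
  rw [hpre, Measure.addHaar_preimage_linearMap volume hdet0, hdet, inv_div, abs_div,
    abs_of_nonneg (by positivity : 0 ≤ T ^ 2)]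

private theorem cst_ev (g : Fin 4 → ℝ) (v : Fin 2 → ℝ) :
    ev (fun i => (g i : ℂ)) (fun i => (v i : ℂ)) = ((ev g v : ℝ) : ℂ) := by
  unfold ev
  push_cast
  rfl

private theorem cst_disc (g : Fin 4 → ℝ) : disc (fun i => (g i : ℂ)) = ((disc g : ℝ) : ℂ) := by
  unfold disc
  push_cast
  rfl

private theorem cst_hes (g : Fin 4 → ℝ) (v : Fin 2 → ℝ) :
    hes (fun i => (g i : ℂ)) (fun i => (v i : ℂ)) = ((hes g v : ℝ) : ℂ) := by
  unfold hes hA hC
  push_cast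
  rfl

private theorem v1_iff {T : ℝ} (hT : 0 < T) (g : Fin 4 → ℝ) (v : Fin 2 → ℝ) {q : ℝ}
    (hq : ev g v ^ 2 * disc g = q ^ 2 ∨ ev g v ^ 2 * disc g = -q ^ 2) :
    V1 T (fun i => (g i : ℂ)) (fun i => (v i : ℂ)) ↔ |hes g v| ≤ T ^ 2 ∧ |q| ≤ T ^ 3 := by
  unfold V1
  rw [cst_ev, cst_disc, cst_hes, Complex.norm_real, Real.norm_eq_abs, ← Complex.ofReal_pow,
    ← Complex.ofReal_mul, Complex.norm_real, Real.norm_eq_abs]
  have h1 : |ev g v ^ 2 * disc g| = |q| ^ 2 := by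
    rcases hq with h | h
    · rw [h, abs_pow]
    · rw [h, abs_neg, abs_pow]
  have h2 : T ^ 6 = (T ^ 3) ^ 2 := by ring
  rw [h1, h2, pow_le_pow_iff_left₀ (abs_nonneg _) (by positivity) two_ne_zero]

theorem v1_volR {g : Fin 4 → ℝ} (hg : disc g ≠ 0) {T : ℝ} (hT : 0 < T) :
    volume {v : Fin 2 → ℝ | V1 T (fun i => (g i : ℂ)) (fun i => (v i : ℂ))} =
      ENNReal.ofReal (T ^ 2 * cR (decide (0 < disc g)) / Real.sqrt |disc g|) := by
  have hT2 : 0 < T ^ 2 := by positivity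
  have hT3 : 0 < T ^ 3 := by positivity
  have sc : ∀ {k : ℕ} (x : ℝ), |T ^ k * x| ≤ T ^ k ↔ |x| ≤ 1 := by
    intro k x
    have hk : 0 < T ^ k := by positivity
    rw [abs_mul, abs_of_pos hk]
    exact mul_le_iff_le_one_right hk
  rcases lt_or_gt_of_ne hg with h | h
  · obtain ⟨l, m, h1, h2, h3⟩ := facN h
    have hδ : dt l m ≠ 0 := by
      intro h0
      rw [h1, h0] at h
      norm_num at h
    have hv := vol_lin (W := WR false)
      (S := {v : Fin 2 → ℝ | V1 T (fun i => (g i : ℂ)) (fun i => (v i : ℂ))}) hδ hT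
      (fun v x e1 e2 => by
        have hq : ev g v ^ 2 * disc g = -(T ^ 3 * (2 * (x 0 * (x 0 ^ 2 + x 1 ^ 2)))) ^ 2 := by
          have h4 := h2 v
          rw [e1, e2] at h4
          have h5 : ev g v ^ 2 * disc g = -(2 * (ev g v * dt l m)) ^ 2 := by
            rw [h1]
            ring
          rw [h5, h4]
          ring
        have hh : hes g v = T ^ 2 * (x 1 ^ 2 - 3 * x 0 ^ 2) := by
          rw [h3 v, e1, e2]
          ring
        rw [Set.mem_ofPred_eq, v1_iff hT g v (Or.inr hq), hh, sc, sc]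
        rfl)
    have hsq : Real.sqrt |disc g| = 2 * |dt l m| := by
      rw [h1, abs_neg, abs_of_nonneg (by positivity), show 4 * dt l m ^ 2 = (2 * |dt l m|) ^ 2 by
        rw [mul_pow, sq_abs]; ring, Real.sqrt_sq (by positivity)]
    have hd : decide (0 < disc g) = false := decide_eq_false (by linarith)
    have hW : volume (WR false) = ENNReal.ofReal (volume (WR false)).toReal :=
      (ENNReal.ofReal_toReal (wr_fin false)).symm
    rw [hv, hd, hsq, hW, ← ENNReal.ofReal_mul (by positivity)]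
    congr 1
    unfold cR
    rw [if_neg (by decide)]
    field_simp
  · obtain ⟨l, m, h1, h2, h3⟩ := facP h
    have hδ : dt l m ≠ 0 := by
      intro h0
      rw [h1, h0] at h
      norm_num at h
    have hv := vol_lin (W := WR true)
      (S := {v : Fin 2 → ℝ | V1 T (fun i => (g i : ℂ)) (fun i => (v i : ℂ))}) hδ hT
      (fun v x e1 e2 => by
        have hq : ev g v ^ 2 * disc g = (T ^ 3 * (x 0 * x 1 * (x 0 + x 1))) ^ 2 := by
          have h4 := h2 v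
          rw [e1, e2] at h4
          have h5 : ev g v ^ 2 * disc g = (ev g v * dt l m) ^ 2 := by
            rw [h1]
            ring
          rw [h5, h4]
          ring
        have hh : hes g v = T ^ 2 * (x 0 ^ 2 + x 0 * x 1 + x 1 ^ 2) := by
          rw [h3 v, e1, e2]
          ring
        rw [Set.mem_ofPred_eq, v1_iff hT g v (Or.inl hq), hh, sc, sc]
        rfl)
    have hsq : Real.sqrt |disc g| = |dt l m| := by
      rw [h1, abs_of_nonneg (sq_nonneg _), Real.sqrt_sq_eq_abs]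
    have hd : decide (0 < disc g) = true := decide_eq_true h
    have hW : volume (WR true) = ENNReal.ofReal (volume (WR true)).toReal :=
      (ENNReal.ofReal_toReal (wr_fin true)).symm
    rw [hv, hd, hsq, hW, ← ENNReal.ofReal_mul (by positivity)]
    congr 1
    unfold cR
    rw [if_pos rfl]
    field_simp

end H38.SQM
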